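import Pool.Agent.X93.BLT.Weak

/-! The Balian–Low argument for one coordinate. -/

set_option autoImplicit false
set_option linter.unusedSectionVars false

open Filter Topology Finset MeasureTheory
open scoped InnerProductSpace ComplexConjugate

namespace Pool.Agent.X93.BLT

variable {d : ℕ}

/-- Multiplication by the `j`-th coordinate. -/
def mulX (j : Fin d) (f : (Fin d → ℝ) → ℂ) : (Fin d → ℝ) → ℂ := fun x => (x j : ℂ) * f x

lemma aesm_mulX {f : (Fin d → ℝ) → ℂ} (hf : AEStronglyMeasurable f volume) (j : Fin d) :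
    AEStronglyMeasurable (mulX j f) volume := by
  have h1 : Continuous (fun x : Fin d → ℝ => (x j : ℂ)) :=
    Complex.continuous_ofReal.comp (continuous_apply j)
  exact h1.aestronglyMeasurable.mul hf

lemma memLp_mulX_iff {f : (Fin d → ℝ) → ℂ} (hf : AEStronglyMeasurable f volume) (j : Fin d) :
    MemLp (mulX j f) 2 volume ↔ Integrable (fun x : Fin d → ℝ => x j ^ 2 * ‖f x‖ ^ 2) volume := by
  rw [memLp_two_iff_integrable_sq_norm (aesm_mulX hf j)]
  have : (fun x => ‖mulX j f x‖ ^ 2) = fun x : Fin d → ℝ => x j ^ 2 * ‖f x‖ ^ 2 := by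
    funext x
    unfold mulX
    rw [norm_mul, mul_pow, Complex.norm_real, Real.norm_eq_abs, sq_abs]
  rw [this]

lemma ph_single (j : Fin d) (s : ℝ) (x : Fin d → ℝ) :
    ph (Pi.single j s) x = Complex.exp (Complex.I * ((2 * Real.pi * s * x j : ℝ) : ℂ)) := by
  unfold ph
  have : (∑ i, (Pi.single j s : Fin d → ℝ) i * x i : ℝ) = s * x j := by
    rw [sum_eq_single j]
    · simp
    · intro b _ hb
      simp [Pi.single_eq_of_ne hb]
    · simp
  rw [this]
  congr 1
  push_cast
  ring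

lemma norm_ph_sub_one_le (j : Fin d) (s : ℝ) (x : Fin d → ℝ) :
    ‖ph (Pi.single j s) x - 1‖ ≤ 2 * Real.pi * |s| * |x j| := by
  rw [ph_single]
  refine (Real.norm_exp_I_mul_ofReal_sub_one_le).trans (le_of_eq ?_)
  rw [Real.norm_eq_abs, abs_mul, abs_mul, abs_of_pos (by positivity : (0 : ℝ) < 2 * Real.pi)]

lemma norm_ph_sub_one_ge (j : Fin d) {N : ℝ} (hN : 0 < N) (x : Fin d → ℝ) (hx : |x j| ≤ N / 2) :
    4 * |x j| / N ≤ ‖ph (Pi.single j (1 / N)) x - 1‖ := by
  rw [ph_single, Complex.norm_exp_I_mul_ofReal_sub_one]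
  set θ : ℝ := 2 * Real.pi * (1 / N) * x j / 2 with hθ
  have hθabs : |θ| = Real.pi * |x j| / N := by
    rw [hθ]
    have : 2 * Real.pi * (1 / N) * x j / 2 = Real.pi / N * x j := by field_simp
    rw [this, abs_mul, abs_of_pos (by positivity)]
    ring
  have hle : |θ| ≤ Real.pi / 2 := by
    rw [hθabs, div_le_iff₀ hN]
    have := mul_le_mul_of_nonneg_left hx Real.pi_pos.le
    linarith
  have h1 : 2 / Real.pi * |θ| ≤ Real.sin |θ| := Real.mul_le_sin (abs_nonneg _) hle
  have h2 : Real.sin |θ| ≤ |Real.sin θ| := by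
    rcases abs_cases θ with ⟨h, _⟩ | ⟨h, _⟩
    · rw [h]; exact le_abs_self _
    · rw [h, Real.sin_neg]; exact neg_le_abs _
  have h3 : 2 / Real.pi * |θ| = 2 * |x j| / N := by
    rw [hθabs]
    have := Real.pi_pos.ne'
    field_simp
  rw [h3] at h1
  have h4 : ‖2 * Real.sin θ‖ = 2 * |Real.sin θ| := by
    rw [norm_mul, Real.norm_eq_abs, Real.norm_eq_abs, abs_of_pos (by norm_num : (0 : ℝ) < 2)]
  rw [h4]
  have h5 : 4 * |x j| / N = 2 * (2 * |x j| / N) := by ring
  rw [h5]
  linarith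

variable {S : Sys d} {g γ : (Fin d → ℝ) → ℂ} {A B : ℝ}

lemma n2_mod (w : Fin d → ℝ) (f : (Fin d → ℝ) → ℂ) :
    n2 (fun x => tf 0 w f x - f x) = ∫ x, ‖ph w x - 1‖ ^ 2 * ‖f x‖ ^ 2 := by
  unfold n2
  congr 1
  ext x
  rw [← mul_pow, ← norm_mul]
  congr 2
  simp [tf, sub_mul]

lemma memLp_mulX_dual (h : DualW S g γ A B) (j : Fin d) (hg : MemLp (mulX j g) 2 volume) :
    MemLp (mulX j γ) 2 volume := by
  have hA := h.rz.hA
  rw [memLp_mulX_iff h.mem.aestronglyMeasurable]
  have hgi : Integrable (fun x : Fin d → ℝ => x j ^ 2 * ‖g x‖ ^ 2) volume :=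
    (memLp_mulX_iff h.rz.mem.aestronglyMeasurable j).1 hg
  have hγ2 : Integrable (fun x => ‖γ x‖ ^ 2) volume :=
    (memLp_two_iff_integrable_sq_norm h.mem.aestronglyMeasurable).1 h.mem
  set G : ℝ := ∫ x : Fin d → ℝ, x j ^ 2 * ‖g x‖ ^ 2 with hG
  set C : ℝ := A⁻¹ * (A⁻¹ * ((2 * Real.pi) ^ 2 * G)) with hC
  set φ : ℕ → Set (Fin d → ℝ) := fun n => {x | |x j| ≤ ((n : ℝ) + 1) / 2} with hφ
  have hmeas : ∀ n, MeasurableSet (φ n) := fun n =>
    measurableSet_le (by fun_prop) measurable_const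
  have hcov : AECover volume atTop φ :=
    { ae_eventually_mem := by
        refine Eventually.of_forall (fun x => ?_)
        obtain ⟨m, hm⟩ := exists_nat_ge (2 * |x j|)
        filter_upwards [eventually_ge_atTop m] with n hn
        show |x j| ≤ ((n : ℝ) + 1) / 2
        have : (m : ℝ) ≤ n := by exact_mod_cast hn
        linarith
      measurableSet := hmeas }
  refine hcov.integrable_of_integral_norm_bounded (C / 16) (fun n => ?_)
    (Eventually.of_forall (fun n => ?_))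
  · -- integrable on each set
    have h1 : Integrable (fun x => (((n : ℝ) + 1) / 2) ^ 2 * ‖γ x‖ ^ 2) (volume.restrict (φ n)) :=
      (hγ2.const_mul _).restrict
    refine h1.mono' ?_ ?_
    · have h2 : Continuous (fun x : Fin d → ℝ => x j ^ 2) := by fun_prop
      exact (h2.aestronglyMeasurable.mul hγ2.aestronglyMeasurable).restrict
    · rw [ae_restrict_iff' (hmeas n)]
      refine Eventually.of_forall (fun x hx => ?_)
      rw [Real.norm_eq_abs, abs_of_nonneg (by positivity)]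
      apply mul_le_mul_of_nonneg_right _ (by positivity)
      rw [← sq_abs]
      exact pow_le_pow_left₀ (abs_nonneg _) hx 2
  · set N : ℝ := (n : ℝ) + 1 with hN
    have hNpos : 0 < N := by positivity
    have hmod := h.modulation (Pi.single j (1 / N))
    have e1 : n2 (fun x => g x - tf 0 (Pi.single j (1 / N)) g x)
        = ∫ x, ‖ph (Pi.single j (1 / N)) x - 1‖ ^ 2 * ‖g x‖ ^ 2 := by
      rw [← n2_mod]
      unfold n2
      congr 1
      ext x
      rw [norm_sub_rev]
    rw [e1, n2_mod] at hmod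
    -- upper bound for `g`
    have e2 : ∫ x, ‖ph (Pi.single j (1 / N)) x - 1‖ ^ 2 * ‖g x‖ ^ 2
        ≤ (2 * Real.pi) ^ 2 / N ^ 2 * G := by
      rw [hG, ← integral_const_mul]
      apply integral_mono_of_nonneg (Eventually.of_forall (fun x => by positivity))
        (hgi.const_mul _)
      refine Eventually.of_forall (fun x => ?_)
      have h2 := norm_ph_sub_one_le j (1 / N) x
      have h3 : ‖ph (Pi.single j (1 / N)) x - 1‖ ^ 2 ≤ (2 * Real.pi) ^ 2 / N ^ 2 * x j ^ 2 := by
        calc ‖ph (Pi.single j (1 / N)) x - 1‖ ^ 2 ≤ (2 * Real.pi * |1 / N| * |x j|) ^ 2 :=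
              pow_le_pow_left₀ (norm_nonneg _) h2 2
          _ = (2 * Real.pi) ^ 2 / N ^ 2 * x j ^ 2 := by
              rw [mul_pow, mul_pow, sq_abs, sq_abs]
              field_simp
      calc ‖ph (Pi.single j (1 / N)) x - 1‖ ^ 2 * ‖g x‖ ^ 2
          ≤ ((2 * Real.pi) ^ 2 / N ^ 2 * x j ^ 2) * ‖g x‖ ^ 2 :=
            mul_le_mul_of_nonneg_right h3 (by positivity)
        _ = (2 * Real.pi) ^ 2 / N ^ 2 * (x j ^ 2 * ‖g x‖ ^ 2) := by ring
    -- lower bound for `γ`
    have hγmod : Integrable (fun x => ‖ph (Pi.single j (1 / N)) x - 1‖ ^ 2 * ‖γ x‖ ^ 2) volume := by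
      refine (hγ2.const_mul 4).mono' ?_ ?_
      · have h2 : Continuous (fun x : Fin d → ℝ => ‖ph (Pi.single j (1 / N)) x - 1‖ ^ 2) :=
          (((continuous_ph _).sub continuous_const).norm).pow 2
        exact h2.aestronglyMeasurable.mul hγ2.aestronglyMeasurable
      · refine Eventually.of_forall (fun x => ?_)
        rw [Real.norm_eq_abs, abs_of_nonneg (by positivity)]
        apply mul_le_mul_of_nonneg_right _ (by positivity)
        have h2 : ‖ph (Pi.single j (1 / N)) x - 1‖ ≤ 2 := by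
          refine (norm_sub_le _ _).trans ?_
          rw [norm_ph, norm_one]
          norm_num
        calc ‖ph (Pi.single j (1 / N)) x - 1‖ ^ 2 ≤ 2 ^ 2 :=
              pow_le_pow_left₀ (norm_nonneg _) h2 2
          _ = 4 := by norm_num
    have e3 : 16 / N ^ 2 * (∫ x in φ n, x j ^ 2 * ‖γ x‖ ^ 2)
        ≤ ∫ x, ‖ph (Pi.single j (1 / N)) x - 1‖ ^ 2 * ‖γ x‖ ^ 2 := by
      rw [← integral_const_mul]
      refine le_trans ?_ (setIntegral_le_integral (s := φ n) hγmod
        (Eventually.of_forall (fun x => by positivity)))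
      apply integral_mono_of_nonneg (Eventually.of_forall (fun x => by positivity))
        hγmod.restrict
      rw [EventuallyLE, ae_restrict_iff' (hmeas n)]
      refine Eventually.of_forall (fun x hx => ?_)
      have h2 := norm_ph_sub_one_ge j hNpos x hx
      have h3 : 16 / N ^ 2 * x j ^ 2 ≤ ‖ph (Pi.single j (1 / N)) x - 1‖ ^ 2 := by
        calc 16 / N ^ 2 * x j ^ 2 = (4 * |x j| / N) ^ 2 := by
              rw [div_pow, mul_pow, sq_abs]; ring
          _ ≤ _ := pow_le_pow_left₀ (by positivity) h2 2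
      calc 16 / N ^ 2 * (x j ^ 2 * ‖γ x‖ ^ 2) = (16 / N ^ 2 * x j ^ 2) * ‖γ x‖ ^ 2 := by ring
        _ ≤ _ := mul_le_mul_of_nonneg_right h3 (by positivity)
    have e4 : ∫ x in φ n, ‖(x j ^ 2 * ‖γ x‖ ^ 2 : ℝ)‖ = ∫ x in φ n, x j ^ 2 * ‖γ x‖ ^ 2 := by
      congr 1
      ext x
      rw [Real.norm_eq_abs, abs_of_nonneg (by positivity)]
    rw [e4]
    have e5 : 16 / N ^ 2 * (∫ x in φ n, x j ^ 2 * ‖γ x‖ ^ 2) ≤ C / N ^ 2 := by
      refine e3.trans (hmod.trans ?_)
      have h6 : A⁻¹ * (A⁻¹ * ∫ x, ‖ph (Pi.single j (1 / N)) x - 1‖ ^ 2 * ‖g x‖ ^ 2)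
          ≤ A⁻¹ * (A⁻¹ * ((2 * Real.pi) ^ 2 / N ^ 2 * G)) := by gcongr
      refine h6.trans (le_of_eq ?_)
      rw [hC]
      ring
    have h7 : 16 * (∫ x in φ n, x j ^ 2 * ‖γ x‖ ^ 2) ≤ C := by
      have h8 : 16 / N ^ 2 * (∫ x in φ n, x j ^ 2 * ‖γ x‖ ^ 2)
          = (16 * (∫ x in φ n, x j ^ 2 * ‖γ x‖ ^ 2)) / N ^ 2 := by ring
      rw [h8] at e5
      exact (div_le_div_iff_of_pos_right (by positivity)).1 e5
    linarith

lemma mulX_tf (j : Fin d) (a b : Fin d → ℝ) (f : (Fin d → ℝ) → ℂ) :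
    tf a b (mulX j f) = fun x => mulX j (tf a b f) x - (a j : ℂ) * tf a b f x := by
  funext x
  simp only [tf, mulX, Pi.sub_apply]
  push_cast
  ring

lemma ip_mulX (j : Fin d) (f h : (Fin d → ℝ) → ℂ) : ip f (mulX j h) = ip (mulX j f) h := by
  unfold ip mulX
  congr 1
  ext x
  rw [map_mul, Complex.conj_ofReal]
  ring

lemma memLp_mulX_tf {f : (Fin d → ℝ) → ℂ} {j : Fin d} (hf : MemLp f 2 volume)
    (hX : MemLp (mulX j f) 2 volume) (a b : Fin d → ℝ) : MemLp (mulX j (tf a b f)) 2 volume := by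
  have h1 := memLp_tf hX a b
  rw [mulX_tf] at h1
  have h2 : MemLp (fun x => (a j : ℂ) * tf a b f x) 2 volume := (memLp_tf hf a b).const_mul _
  have h3 := h1.add h2
  refine h3.ae_eq (Eventually.of_forall (fun x => ?_))
  simp

/-- first commutation relation. -/
lemma DualW.Q1 (h : DualW S g γ A B) (j : Fin d) (hg : MemLp (mulX j g) 2 volume)
    (k : Fin d ⊕ Fin d → ℤ) :
    ip (S.el γ k) (mulX j g) = ph (-(S.b k)) (S.a k) * ip (mulX j γ) (S.el g (-k)) := by
  unfold Sys.el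
  rw [ip_tf_left, mulX_tf, S.a_neg, S.b_neg]
  have hm1 : MemLp (mulX j (tf (-S.a k) (-S.b k) g)) 2 volume := memLp_mulX_tf h.rz.mem hg _ _
  have hm2 : MemLp (fun x => (((-S.a k) j : ℝ) : ℂ) * tf (-S.a k) (-S.b k) g x) 2 volume :=
    (memLp_tf h.rz.mem _ _).const_mul _
  rw [ip_sub_right h.mem hm1 hm2, ip_mulX, ip_smul_right]
  have h1 : ip γ (tf (-S.a k) (-S.b k) g) = if -k = 0 then 1 else 0 := by
    have := h.dual (-k)
    unfold Sys.el at this
    rwa [S.a_neg, S.b_neg] at this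
  rw [h1]
  by_cases hk : k = 0
  · rw [hk, S.a_zero]
    simp
  · rw [if_neg (by simpa using hk)]
    simp

/-- second commutation relation. -/
lemma DualW.Q2 (h : DualW S g γ A B) (w : Fin d → ℝ) (k : Fin d ⊕ Fin d → ℤ) :
    ip (fun x => tf (-w) 0 γ x - γ x) (S.el g k)
      = ph (S.b k) (-w) * ph (S.b k) (S.a k)
        * ip (S.el γ (-k)) (fun x => tf w 0 g x - g x) := by
  have hg := h.rz.mem
  rw [ip_sub_left (memLp_tf h.mem _ _) h.mem (memLp_el hg k),
    ip_sub_right (memLp_el h.mem _) (memLp_tf hg _ _) hg]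
  have e1 : ip (tf (-w) 0 γ) (S.el g k)
      = ph (S.b k) (-w) * ph (S.b k) (S.a k) * ip (S.el γ (-k)) (tf w 0 g) := by
    unfold Sys.el
    rw [ip_tf_tf, ip_tf_tf, S.a_neg, S.b_neg]
    simp only [sub_zero, sub_neg_eq_add, zero_add]
    rw [ph_neg_right (S.b k) (S.a k), add_comm w (S.a k)]
    have h1 : ph (S.b k) (S.a k) * ph (-S.b k) (S.a k) = 1 := by
      rw [← ph_add_left]
      simp
    calc ph (S.b k) (-w) * ip γ (tf (S.a k + w) (S.b k) g)
        = ph (S.b k) (-w) * (ph (S.b k) (S.a k) * ph (-S.b k) (S.a k))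
          * ip γ (tf (S.a k + w) (S.b k) g) := by rw [h1, mul_one]
      _ = _ := by ring
  have e2 : ip γ (S.el g k) = ph (S.b k) (-w) * ph (S.b k) (S.a k) * ip (S.el γ (-k)) g := by
    have h1 := h.biorth (-k) 0
    have h2 : S.el g 0 = g := by
      funext x
      simp [Sys.el, S.a_zero, S.b_zero, tf]
    rw [h2] at h1
    rw [h1, h.dual k]
    by_cases hk : k = 0
    · rw [hk, S.a_zero, S.b_zero]
      simp
    · rw [if_neg hk, if_neg (by simpa using fun h' : 0 = -k => hk (by simpa using h'.symm)),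
        mul_zero]
  rw [e1, e2]
  ring

/-- exact identity. -/
lemma DualW.exact_id (h : DualW S g γ A B) (j : Fin d) (hg : MemLp (mulX j g) 2 volume)
    (t : ℝ) :
    ip (fun x => tf (-(Pi.single j t)) 0 γ x - γ x) (mulX j g)
      = ip (mulX j γ) (fun x => tf (Pi.single j t) 0 g x - g x)
        - t * ip γ (tf (Pi.single j t) 0 g) := by
  have hgm := h.rz.mem
  have hX := memLp_mulX_dual h j hg
  rw [ip_sub_left (memLp_tf h.mem _ _) h.mem hg, ip_sub_right hX (memLp_tf hgm _ _) hgm,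
    ip_tf_left, neg_neg, neg_zero, ph_zero_left, one_mul, mulX_tf]
  have hm1 : MemLp (mulX j (tf (Pi.single j t) 0 g)) 2 volume := memLp_mulX_tf hgm hg _ _
  have hm2 : MemLp (fun x => (((Pi.single j t : Fin d → ℝ) j : ℝ) : ℂ)
      * tf (Pi.single j t) 0 g x) 2 volume := (memLp_tf hgm _ _).const_mul _
  rw [ip_sub_right h.mem hm1 hm2, ip_mulX, ip_smul_right, ip_mulX]
  rw [Pi.single_eq_same]
  ring

/-- The Balian–Low theorem for one coordinate. -/
theorem blt (hz : Riesz S g A B) (j : Fin d) (hg : MemLp (mulX j g) 2 volume)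
    {h' : (Fin d → ℝ) → ℂ} (hh : MemLp h' 2 volume) (hw : WeakD (Pi.single j (1 : ℝ)) g h') :
    False := by
  obtain ⟨γ, hγm, hγd⟩ := hz.exists_dual
  have h : DualW S g γ A B := ⟨hz, hγm, hγd⟩
  have hA := hz.hA
  have hgm := hz.mem
  have hX := memLp_mulX_dual h j hg
  set t : ℕ → ℝ := fun n => 1 / ((n : ℝ) + 1) with ht
  have htpos : ∀ n, 0 < t n := fun n => by rw [ht]; positivity
  have htlim : Tendsto t atTop (𝓝 0) := tendsto_one_div_add_atTop_nhds_zero_nat
  set w : ℕ → Fin d → ℝ := fun n => Pi.single j (t n) with hwdef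
  set D : ℕ → (Fin d → ℝ) → ℂ := fun n x => tf (w n) 0 g x - g x with hD
  have hDm : ∀ n, MemLp (D n) 2 volume := fun n => (memLp_tf hgm _ _).sub hgm
  have hDn : ∀ n, n2 (D n) ≤ t n ^ 2 * n2 h' := by
    intro n
    have h1 := translation_bound hgm hh hw (t n)
    have h2 : t n • (Pi.single j (1 : ℝ) : Fin d → ℝ) = w n := by
      rw [hwdef]
      simp only
      rw [← Pi.single_smul, smul_eq_mul, mul_one]
    rw [h2] at h1
    exact h1
  set u : (Fin d ⊕ Fin d → ℤ) → ℂ := fun k => ip (mulX j γ) (S.el g k) with hu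
  have hubd : ∀ s : Finset (Fin d ⊕ Fin d → ℤ), ∑ k ∈ s, ‖u k‖ ^ 2 ≤ B * n2 (mulX j γ) :=
    fun s => h.bessel_g hX s
  set v : ℕ → (Fin d ⊕ Fin d → ℤ) → ℂ := fun n k => ip (S.el γ k) (D n) with hv
  have hvbd : ∀ n, ∀ s : Finset (Fin d ⊕ Fin d → ℤ),
      ∑ k ∈ s, ‖v n k‖ ^ 2 ≤ A⁻¹ * (t n ^ 2 * n2 h') := by
    intro n s
    refine (h.bessel (hDm n) s).trans ?_
    exact mul_le_mul_of_nonneg_left (hDn n) (inv_nonneg.2 hA.le)
  -- series for the commutator
  have hser : ∀ n, HasSum (fun k => ((1 - ph (S.b k) (w n)) * u k) * v n k)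
      ((t n : ℂ) * ip γ (tf (w n) 0 g)) := by
    intro n
    have s1 := h.expansion (hDm n) hX
    have hE : MemLp (fun x => tf (-(w n)) 0 γ x - γ x) 2 volume :=
      (memLp_tf h.mem _ _).sub h.mem
    have s2 := h.expansion hg hE
    have s3 : HasSum (fun k => ph (S.b k) (w n) * (u k * v n k))
        (ip (fun x => tf (-(w n)) 0 γ x - γ x) (mulX j g)) := by
      rw [← (Equiv.neg (Fin d ⊕ Fin d → ℤ)).hasSum_iff]
      refine s2.congr_fun ?_
      intro k
      simp only [Function.comp_apply, Equiv.neg_apply]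
      rw [h.Q1 j hg k, h.Q2 (w n) k]
      have h1 : ph (S.b k) (S.a k) * ph (-S.b k) (S.a k) = 1 := by
        rw [← ph_add_left]; simp
      have h2 : ph (S.b (-k)) (w n) = ph (S.b k) (-(w n)) := by
        rw [S.b_neg, ph_neg_right]
      rw [h2]
      calc ph (S.b k) (-w n) * (u (-k) * v n (-k))
          = ph (S.b k) (-w n) * (ph (S.b k) (S.a k) * ph (-S.b k) (S.a k))
            * (u (-k) * v n (-k)) := by rw [h1, mul_one]
        _ = _ := by
          simp only [hu, hv, hD]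
          ring
    have s4 := s1.sub s3
    rw [h.exact_id j hg (t n)] at s4
    have e1 : ip (mulX j γ) (D n) - (ip (mulX j γ) (fun x => tf (Pi.single j (t n)) 0 g x - g x)
        - (t n : ℂ) * ip γ (tf (Pi.single j (t n)) 0 g)) = (t n : ℂ) * ip γ (tf (w n) 0 g) := by
      simp only [hD, hwdef]
      ring
    rw [e1] at s4
    refine s4.congr_fun ?_
    intro k
    simp only [hu, hv]
    ring
  -- the dominated sum
  set R : ℕ → ℝ := fun n => ∑' k, ‖(1 - ph (S.b k) (w n)) * u k‖ ^ 2 with hR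
  have husum : Summable (fun k => ‖u k‖ ^ 2) := summable_sq_of_bound hubd
  have hpt : ∀ n k, ‖(1 - ph (S.b k) (w n)) * u k‖ ^ 2 ≤ 4 * ‖u k‖ ^ 2 := by
    intro n k
    rw [norm_mul, mul_pow]
    apply mul_le_mul_of_nonneg_right _ (by positivity)
    have h2 : ‖1 - ph (S.b k) (w n)‖ ≤ 2 := by
      refine (norm_sub_le _ _).trans ?_
      rw [norm_ph, norm_one]
      norm_num
    calc ‖1 - ph (S.b k) (w n)‖ ^ 2 ≤ 2 ^ 2 := pow_le_pow_left₀ (norm_nonneg _) h2 2
      _ = 4 := by norm_num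
  have hsumR : ∀ n, Summable (fun k => ‖(1 - ph (S.b k) (w n)) * u k‖ ^ 2) := fun n =>
    Summable.of_nonneg_of_le (fun k => by positivity) (hpt n) (husum.mul_left 4)
  have hRlim : Tendsto R atTop (𝓝 0) := by
    have h1 : Tendsto R atTop (𝓝 (∑' _ : (Fin d ⊕ Fin d → ℤ), (0 : ℝ))) := by
      apply tendsto_tsum_of_dominated_convergence (husum.mul_left 4)
      · intro k
        have h2 : Tendsto (fun n => w n) atTop (𝓝 0) := by
          have h3 : Continuous (fun s : ℝ => (Pi.single j s : Fin d → ℝ)) := by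
            apply continuous_pi
            intro i
            by_cases hi : i = j
            · subst hi
              simp only [Pi.single_eq_same]
              exact continuous_id
            · simp only [Pi.single_eq_of_ne hi]
              exact continuous_const
          have h4 := (h3.tendsto 0).comp htlim
          rw [Pi.single_zero] at h4
          exact h4
        have h5 : Tendsto (fun n => ph (S.b k) (w n)) atTop (𝓝 (ph (S.b k) 0)) :=
          ((continuous_ph (S.b k)).tendsto 0).comp h2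
        rw [ph_zero_right] at h5
        have h6 : Tendsto (fun n => ‖(1 - ph (S.b k) (w n)) * u k‖ ^ 2) atTop
            (𝓝 (‖((1 : ℂ) - 1) * u k‖ ^ 2)) :=
          (((tendsto_const_nhds.sub h5).mul_const (u k)).norm).pow 2
        simpa using h6
      · refine Eventually.of_forall (fun n k => ?_)
        rw [Real.norm_eq_abs, abs_of_nonneg (by positivity)]
        exact hpt n k
    simpa using h1
  -- the bound
  have hbound : ∀ n, ‖ip γ (tf (w n) 0 g)‖ ^ 2 ≤ R n * (A⁻¹ * n2 h') := by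
    intro n
    have h1 := norm_tsum_mul_sq_le (a := fun k => (1 - ph (S.b k) (w n)) * u k) (b := v n)
      (C := R n) (D := A⁻¹ * (t n ^ 2 * n2 h'))
      (fun s => (hsumR n).sum_le_tsum s (fun _ _ => by positivity)) (hvbd n)
    rw [(hser n).tsum_eq, norm_mul, mul_pow, Complex.norm_real, Real.norm_eq_abs, sq_abs] at h1
    have h2 : 0 < t n ^ 2 := by have := htpos n; positivity
    have h3 : t n ^ 2 * ‖ip γ (tf (w n) 0 g)‖ ^ 2 ≤ t n ^ 2 * (R n * (A⁻¹ * n2 h')) := by
      refine h1.trans (le_of_eq ?_)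
      ring
    exact le_of_mul_le_mul_left h3 h2
  have hlim0 : Tendsto (fun n => ‖ip γ (tf (w n) 0 g)‖ ^ 2) atTop (𝓝 0) := by
    have h1 : Tendsto (fun n => R n * (A⁻¹ * n2 h')) atTop (𝓝 (0 * (A⁻¹ * n2 h'))) :=
      hRlim.mul_const _
    rw [zero_mul] at h1
    exact squeeze_zero (fun n => by positivity) hbound h1
  -- but the limit is `1`
  have hγg : ip γ g = 1 := by
    have h1 := hγd 0
    have h2 : S.el g 0 = g := by
      funext x
      simp [Sys.el, S.a_zero, S.b_zero, tf]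
    rw [h2, if_pos rfl] at h1
    exact h1
  have hdiff : ∀ n, ‖ip γ (tf (w n) 0 g) - 1‖ ^ 2 ≤ n2 γ * (t n ^ 2 * n2 h') := by
    intro n
    rw [← hγg, ← ip_sub_right hγm (memLp_tf hgm _ _) hgm]
    refine (norm_ip_le hγm (hDm n)).trans ?_
    exact mul_le_mul_of_nonneg_left (hDn n) (n2_nonneg _)
  have hlim1 : Tendsto (fun n => ‖ip γ (tf (w n) 0 g) - 1‖ ^ 2) atTop (𝓝 0) := by
    have h1 : Tendsto (fun n => n2 γ * (t n ^ 2 * n2 h')) atTop (𝓝 (n2 γ * (0 ^ 2 * n2 h'))) :=
      ((htlim.pow 2).mul_const _).const_mul _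
    have h2 : n2 γ * (0 ^ 2 * n2 h') = 0 := by ring
    rw [h2] at h1
    exact squeeze_zero (fun n => by positivity) hdiff h1
  have hz0 : Tendsto (fun n => ip γ (tf (w n) 0 g)) atTop (𝓝 0) := by
    rw [tendsto_zero_iff_norm_tendsto_zero]
    have := (Real.continuous_sqrt.tendsto 0).comp hlim0
    simpa [Function.comp_def] using this
  have hz1 : Tendsto (fun n => ip γ (tf (w n) 0 g) - 1) atTop (𝓝 0) := by
    rw [tendsto_zero_iff_norm_tendsto_zero]
    have := (Real.continuous_sqrt.tendsto 0).comp hlim1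
    simpa [Function.comp_def] using this
  have h3 := hz0.sub_const 1
  have h4 := tendsto_nhds_unique h3 hz1
  norm_num at h4

end Pool.Agent.X93.BLT
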