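import Mathlib

/-! Abstract Riesz basis lemmas. -/

set_option autoImplicit false
set_option linter.unusedSectionVars false

open Filter Topology Finset
open scoped InnerProductSpace

namespace Pool.Agent.X93.BLT

variable {H : Type*} [NormedAddCommGroup H] [InnerProductSpace ℂ H] [CompleteSpace H]
  {ι : Type*} [DecidableEq ι]

structure RB (e : ι → H) (A B : ℝ) : Prop where
  hA : 0 < A
  hB : 0 < B
  complete : ∀ h : H, (∀ k, ⟪h, e k⟫_ℂ = 0) → h = 0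
  lower : ∀ (s : Finset ι) (c : ι → ℂ), A * ∑ k ∈ s, ‖c k‖ ^ 2 ≤ ‖∑ k ∈ s, c k • e k‖ ^ 2
  upper : ∀ (s : Finset ι) (c : ι → ℂ), ‖∑ k ∈ s, c k • e k‖ ^ 2 ≤ B * ∑ k ∈ s, ‖c k‖ ^ 2

lemma norm_sum_mul_sq_le (s : Finset ι) (a b : ι → ℂ) :
    ‖∑ k ∈ s, a k * b k‖ ^ 2 ≤ (∑ k ∈ s, ‖a k‖ ^ 2) * ∑ k ∈ s, ‖b k‖ ^ 2 := by
  have h1 : ‖∑ k ∈ s, a k * b k‖ ≤ ∑ k ∈ s, ‖a k‖ * ‖b k‖ := by
    refine (norm_sum_le _ _).trans (le_of_eq ?_)
    exact sum_congr rfl (fun k _ => norm_mul _ _)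
  have h2 := Finset.sum_mul_sq_le_sq_mul_sq s (fun k => ‖a k‖) (fun k => ‖b k‖)
  have h3 : ‖∑ k ∈ s, a k * b k‖ ^ 2 ≤ (∑ k ∈ s, ‖a k‖ * ‖b k‖) ^ 2 :=
    pow_le_pow_left₀ (norm_nonneg _) h1 2
  exact h3.trans h2

variable {e : ι → H} {A B : ℝ}

lemma RB.dense (h : RB e A B) : Dense (Submodule.span ℂ (Set.range e) : Set H) := by
  rw [Submodule.dense_iff_topologicalClosure_eq_top, Submodule.topologicalClosure_eq_top_iff,
    Submodule.eq_bot_iff]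
  intro x hx
  apply h.complete
  intro k
  have hk : e k ∈ Submodule.span ℂ (Set.range e) := Submodule.subset_span ⟨k, rfl⟩
  exact Submodule.inner_left_of_mem_orthogonal hk hx

lemma exists_sum_of_mem_span {x : H} (hx : x ∈ Submodule.span ℂ (Set.range e)) :
    ∃ (s : Finset ι) (c : ι → ℂ), x = ∑ k ∈ s, c k • e k := by
  rw [Finsupp.mem_span_range_iff_exists_finsupp] at hx
  obtain ⟨c, rfl⟩ := hx
  exact ⟨c.support, c, rfl⟩

/-- existence of the dual vector. -/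
lemma RB.exists_dual (h : RB e A B) (k0 : ι) :
    ∃ γ : H, ∀ k, ⟪γ, e k⟫_ℂ = if k = k0 then 1 else 0 := by
  set V := (Submodule.span ℂ (e '' {k | k ≠ k0})).topologicalClosure with hV
  have hclosed : IsClosed (V : Set H) := Submodule.isClosed_topologicalClosure _
  have : CompleteSpace V := hclosed.completeSpace_coe
  set w : H := e k0 - V.starProjection (e k0) with hw
  have hwV : w ∈ Vᗮ := Submodule.sub_starProjection_mem_orthogonal _
  have hne : w ≠ 0 := by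
    intro h0
    have hmem : e k0 ∈ V := by
      have : e k0 = V.starProjection (e k0) := sub_eq_zero.1 h0
      rw [this]
      exact Submodule.starProjection_apply_mem _ _
    have hfar : ∀ v ∈ (Submodule.span ℂ (e '' {k | k ≠ k0}) : Set H), A ≤ ‖e k0 - v‖ ^ 2 := by
      intro v hv
      rw [SetLike.mem_coe, Finsupp.mem_span_image_iff_linearCombination] at hv
      obtain ⟨c, hc, rfl⟩ := hv
      have hk0 : k0 ∉ c.support := by
        intro hmem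
        have := (Finsupp.mem_supported _ _).1 hc hmem
        exact this rfl
      have h1 := h.lower (insert k0 c.support) (fun k => if k = k0 then 1 else - c k)
      rw [sum_insert hk0, sum_insert hk0] at h1
      have h2 : ∑ k ∈ c.support, (if k = k0 then (1 : ℂ) else - c k) • e k
          = - Finsupp.linearCombination ℂ e c := by
        rw [Finsupp.linearCombination_apply, Finsupp.sum, ← sum_neg_distrib]
        apply sum_congr rfl
        intro k hk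
        rw [if_neg (fun h' : k = k0 => hk0 (h' ▸ hk)), neg_smul]
      rw [h2, if_pos rfl, one_smul, ← sub_eq_add_neg] at h1
      refine le_trans ?_ h1
      have h3 : (0 : ℝ) ≤ ∑ k ∈ c.support, ‖(if k = k0 then (1 : ℂ) else - c k)‖ ^ 2 :=
        sum_nonneg (fun _ _ => by positivity)
      have hA := h.hA
      rw [norm_one]
      nlinarith
    have hfar2 : ∀ v ∈ (V : Set H), A ≤ ‖e k0 - v‖ ^ 2 := by
      intro v hv
      have hcl : IsClosed {v : H | A ≤ ‖e k0 - v‖ ^ 2} :=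
        isClosed_le continuous_const (by fun_prop)
      have hv' : v ∈ closure (Submodule.span ℂ (e '' {k | k ≠ k0}) : Set H) := hv
      exact closure_minimal hfar hcl hv'
    have := hfar2 _ hmem
    rw [sub_self, norm_zero] at this
    have hA := h.hA
    norm_num at this
    linarith
  have hww : ⟪w, e k0⟫_ℂ = ((‖w‖ ^ 2 : ℝ) : ℂ) := by
    have h1 : e k0 = w + V.starProjection (e k0) := by rw [hw]; abel
    have h2 : ⟪w, V.starProjection (e k0)⟫_ℂ = 0 :=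
      Submodule.inner_left_of_mem_orthogonal (Submodule.starProjection_apply_mem _ _) hwV
    rw [h1, inner_add_right, h2, add_zero, inner_self_eq_norm_sq_to_K]
    push_cast
    rfl
  have hn : (‖w‖ ^ 2 : ℝ) ≠ 0 := by
    have := norm_ne_zero_iff.2 hne
    positivity
  refine ⟨(((‖w‖ ^ 2)⁻¹ : ℝ) : ℂ) • w, fun k => ?_⟩
  rw [inner_smul_left, Complex.conj_ofReal]
  by_cases hk : k = k0
  · rw [if_pos hk, hk, hww, ← Complex.ofReal_mul, inv_mul_cancel₀ hn, Complex.ofReal_one]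
  · rw [if_neg hk]
    have hmem : e k ∈ V := Submodule.le_topologicalClosure _ (Submodule.subset_span ⟨k, hk, rfl⟩)
    rw [Submodule.inner_left_of_mem_orthogonal hmem hwV, mul_zero]

/-- A family biorthogonal to `e`. -/
def Dual (e e' : ι → H) : Prop := ∀ k l, ⟪e' k, e l⟫_ℂ = if l = k then 1 else 0

omit [CompleteSpace H] in
lemma Dual.coeff {e' : ι → H} (hd : Dual e e') (s : Finset ι) (c : ι → ℂ) (k : ι) :
    ⟪e' k, ∑ l ∈ s, c l • e l⟫_ℂ = if k ∈ s then c k else 0 := by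
  rw [inner_sum]
  simp_rw [inner_smul_right, hd k]
  simp

lemma RB.bessel_dual (h : RB e A B) {e' : ι → H} (hd : Dual e e') (s : Finset ι) (f : H) :
    ∑ k ∈ s, ‖⟪e' k, f⟫_ℂ‖ ^ 2 ≤ A⁻¹ * ‖f‖ ^ 2 := by
  have hcl : IsClosed {f : H | ∑ k ∈ s, ‖⟪e' k, f⟫_ℂ‖ ^ 2 ≤ A⁻¹ * ‖f‖ ^ 2} :=
    isClosed_le (by fun_prop) (by fun_prop)
  have hsub : (Submodule.span ℂ (Set.range e) : Set H)
      ⊆ {f : H | ∑ k ∈ s, ‖⟪e' k, f⟫_ℂ‖ ^ 2 ≤ A⁻¹ * ‖f‖ ^ 2} := by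
    intro x hx
    obtain ⟨t, c, rfl⟩ := exists_sum_of_mem_span hx
    show ∑ k ∈ s, ‖⟪e' k, ∑ l ∈ t, c l • e l⟫_ℂ‖ ^ 2 ≤ _
    simp_rw [hd.coeff]
    have h1 := h.lower t c
    have h2 : ∑ k ∈ s, ‖(if k ∈ t then c k else 0)‖ ^ 2 ≤ ∑ k ∈ t, ‖c k‖ ^ 2 := by
      have h3 : ∑ k ∈ s, ‖(if k ∈ t then c k else 0)‖ ^ 2 = ∑ k ∈ s ∩ t, ‖c k‖ ^ 2 := by
        rw [← sum_ite_mem]
        apply sum_congr rfl
        intro k _
        split_ifs <;> simp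
      rw [h3]
      exact sum_le_sum_of_subset_of_nonneg inter_subset_right (fun _ _ _ => by positivity)
    refine h2.trans ?_
    rw [inv_mul_eq_div, le_div_iff₀ h.hA, mul_comm]
    exact h1
  have := closure_minimal hsub hcl
  rw [h.dense.closure_eq] at this
  exact this (Set.mem_univ f)

lemma RB.norm_le (h : RB e A B) (D : H) {K : ℝ} (_hK : 0 ≤ K)
    (hD : ∀ s : Finset ι, ∑ k ∈ s, ‖⟪D, e k⟫_ℂ‖ ^ 2 ≤ K) : ‖D‖ ^ 2 ≤ A⁻¹ * K := by
  have hcl : IsClosed {f : H | ‖⟪D, f⟫_ℂ‖ ^ 2 ≤ A⁻¹ * ‖f‖ ^ 2 * K} :=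
    isClosed_le (by fun_prop) (by fun_prop)
  have hsub : (Submodule.span ℂ (Set.range e) : Set H)
      ⊆ {f : H | ‖⟪D, f⟫_ℂ‖ ^ 2 ≤ A⁻¹ * ‖f‖ ^ 2 * K} := by
    intro x hx
    obtain ⟨t, c, rfl⟩ := exists_sum_of_mem_span hx
    show ‖⟪D, ∑ l ∈ t, c l • e l⟫_ℂ‖ ^ 2 ≤ _
    rw [inner_sum]
    simp_rw [inner_smul_right]
    refine (norm_sum_mul_sq_le _ _ _).trans ?_
    have h1 := h.lower t c
    have h2 : ∑ k ∈ t, ‖c k‖ ^ 2 ≤ A⁻¹ * ‖∑ k ∈ t, c k • e k‖ ^ 2 := by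
      rw [inv_mul_eq_div, le_div_iff₀ h.hA, mul_comm]
      exact h1
    exact mul_le_mul h2 (hD t) (sum_nonneg (fun _ _ => by positivity))
      (mul_nonneg (inv_nonneg.2 h.hA.le) (by positivity))
  have h1 := closure_minimal hsub hcl
  rw [h.dense.closure_eq] at h1
  have h2 : ‖⟪D, D⟫_ℂ‖ ^ 2 ≤ A⁻¹ * ‖D‖ ^ 2 * K := h1 (Set.mem_univ D)
  have h3 : ‖⟪D, D⟫_ℂ‖ = ‖D‖ ^ 2 := by
    rw [inner_self_eq_norm_sq_to_K]
    simp
  rw [h3] at h2
  by_cases h0 : ‖D‖ ^ 2 = 0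
  · rw [h0]
    exact mul_nonneg (inv_nonneg.2 h.hA.le) _hK
  · have hpos : 0 < ‖D‖ ^ 2 := lt_of_le_of_ne (by positivity) (Ne.symm h0)
    have h4 : ‖D‖ ^ 2 * ‖D‖ ^ 2 ≤ ‖D‖ ^ 2 * (A⁻¹ * K) := by nlinarith
    exact le_of_mul_le_mul_left h4 hpos

lemma RB.bessel (h : RB e A B) (s : Finset ι) (f : H) :
    ∑ k ∈ s, ‖⟪f, e k⟫_ℂ‖ ^ 2 ≤ B * ‖f‖ ^ 2 := by
  set a : ι → ℂ := fun k => starRingEnd ℂ ⟪f, e k⟫_ℂ with ha
  set X : ℝ := ∑ k ∈ s, ‖⟪f, e k⟫_ℂ‖ ^ 2 with hX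
  have hX0 : 0 ≤ X := sum_nonneg (fun _ _ => by positivity)
  have h1 : ⟪f, ∑ k ∈ s, a k • e k⟫_ℂ = (X : ℂ) := by
    rw [inner_sum, hX]
    push_cast
    apply sum_congr rfl
    intro k _
    rw [inner_smul_right, ha, Complex.conj_mul']
  have h2 : ‖∑ k ∈ s, a k • e k‖ ^ 2 ≤ B * X := by
    have := h.upper s a
    have h3 : ∑ k ∈ s, ‖a k‖ ^ 2 = X := by
      rw [hX]
      exact sum_congr rfl (fun k _ => by rw [ha]; simp only [RCLike.norm_conj])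
    rwa [h3] at this
  have h4 : X ≤ ‖f‖ * ‖∑ k ∈ s, a k • e k‖ := by
    have := norm_inner_le_norm (𝕜 := ℂ) f (∑ k ∈ s, a k • e k)
    rw [h1, Complex.norm_real, Real.norm_eq_abs, abs_of_nonneg hX0] at this
    exact this
  have h5 : X ^ 2 ≤ ‖f‖ ^ 2 * (B * X) := by
    calc X ^ 2 ≤ (‖f‖ * ‖∑ k ∈ s, a k • e k‖) ^ 2 := pow_le_pow_left₀ hX0 h4 2
      _ = ‖f‖ ^ 2 * ‖∑ k ∈ s, a k • e k‖ ^ 2 := by ring
      _ ≤ ‖f‖ ^ 2 * (B * X) := mul_le_mul_of_nonneg_left h2 (by positivity)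
  by_cases h0 : X = 0
  · rw [h0]
    exact mul_nonneg h.hB.le (by positivity)
  · have hpos : 0 < X := lt_of_le_of_ne hX0 (Ne.symm h0)
    nlinarith

lemma summable_sq_of_bound {a : ι → ℂ} {C : ℝ} (h : ∀ s : Finset ι, ∑ k ∈ s, ‖a k‖ ^ 2 ≤ C) :
    Summable (fun k => ‖a k‖ ^ 2) :=
  summable_of_sum_le (fun _ => by positivity) h

lemma summable_mul_of_bound {a b : ι → ℂ} {C D : ℝ} (ha : ∀ s : Finset ι, ∑ k ∈ s, ‖a k‖ ^ 2 ≤ C)
    (hb : ∀ s : Finset ι, ∑ k ∈ s, ‖b k‖ ^ 2 ≤ D) : Summable (fun k => a k * b k) := by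
  apply Summable.of_norm_bounded
    (g := fun k => (‖a k‖ ^ 2 + ‖b k‖ ^ 2) / 2)
    (((summable_sq_of_bound ha).add (summable_sq_of_bound hb)).div_const 2)
  intro k
  rw [norm_mul]
  nlinarith [sq_nonneg (‖a k‖ - ‖b k‖)]

lemma norm_tsum_mul_sq_le {a b : ι → ℂ} {C D : ℝ} (ha : ∀ s : Finset ι, ∑ k ∈ s, ‖a k‖ ^ 2 ≤ C)
    (hb : ∀ s : Finset ι, ∑ k ∈ s, ‖b k‖ ^ 2 ≤ D) : ‖∑' k, a k * b k‖ ^ 2 ≤ C * D := by
  have hs := (summable_mul_of_bound ha hb).hasSum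
  have h1 : Tendsto (fun s : Finset ι => ‖∑ k ∈ s, a k * b k‖ ^ 2) atTop
      (𝓝 (‖∑' k, a k * b k‖ ^ 2)) := (hs.norm).pow 2
  have hC : 0 ≤ C := by simpa using ha ∅
  apply le_of_tendsto' h1
  intro s
  refine (norm_sum_mul_sq_le s a b).trans ?_
  exact mul_le_mul (ha s) (hb s) (sum_nonneg (fun _ _ => by positivity)) hC

lemma RB.expansion (h : RB e A B) {e' : ι → H} (hd : Dual e e') (f g : H) :
    HasSum (fun k => ⟪g, e k⟫_ℂ * ⟪e' k, f⟫_ℂ) ⟪g, f⟫_ℂ := by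
  have hsum : ∀ f, Summable (fun k => ⟪g, e k⟫_ℂ * ⟪e' k, f⟫_ℂ) := fun f =>
    summable_mul_of_bound (fun s => h.bessel s g) (fun s => h.bessel_dual hd s f)
  have hbd : ∀ f, ‖∑' k, ⟪g, e k⟫_ℂ * ⟪e' k, f⟫_ℂ‖ ≤ (Real.sqrt (B * ‖g‖ ^ 2 * A⁻¹)) * ‖f‖ := by
    intro f
    have h1 := norm_tsum_mul_sq_le (fun s => h.bessel s g) (fun s => h.bessel_dual hd s f)
    have hA := h.hA
    have hB := h.hB
    apply le_of_sq_le_sq _ (by positivity)
    rw [mul_pow, Real.sq_sqrt (by positivity)]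
    linarith
  set L : H →L[ℂ] ℂ := LinearMap.mkContinuous
    { toFun := fun f => ∑' k, ⟪g, e k⟫_ℂ * ⟪e' k, f⟫_ℂ
      map_add' := by
        intro x y
        rw [← (hsum x).tsum_add (hsum y)]
        congr 1
        ext k
        rw [inner_add_right, mul_add]
      map_smul' := by
        intro c x
        rw [RingHom.id_apply, smul_eq_mul, ← tsum_mul_left]
        congr 1
        ext k
        rw [inner_smul_right]
        ring } _ hbd with hL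
  have hLapp : ∀ f, L f = ∑' k, ⟪g, e k⟫_ℂ * ⟪e' k, f⟫_ℂ := fun f => rfl
  have heq : L = innerSL ℂ g := by
    apply ContinuousLinearMap.ext_on h.dense
    rintro _ ⟨l, rfl⟩
    rw [hLapp, innerSL_apply_apply]
    rw [tsum_eq_single l]
    · rw [hd l l, if_pos rfl, mul_one]
    · intro k hk
      rw [hd k l, if_neg (Ne.symm hk), mul_zero]
  have h2 := (hsum f).hasSum
  rw [← hLapp, heq, innerSL_apply_apply] at h2
  exact h2

end Pool.Agent.X93.BLT
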