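import Pool.Agent.X93.BLT.Abs

/-! Time-frequency shifts of functions. -/

set_option autoImplicit false
set_option linter.unusedSectionVars false

open Filter Topology Finset MeasureTheory
open scoped InnerProductSpace ComplexConjugate

namespace Pool.Agent.X93.BLT

variable {d : ℕ}

/-- inner product of functions -/
noncomputable def ip (f h : (Fin d → ℝ) → ℂ) : ℂ := ∫ x, (starRingEnd ℂ) (f x) * h x

/-- squared norm -/
noncomputable def n2 (f : (Fin d → ℝ) → ℂ) : ℝ := ∫ x, ‖f x‖ ^ 2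

/-- the phase -/
noncomputable def ph (b x : Fin d → ℝ) : ℂ :=
  Complex.exp (2 * (Real.pi : ℂ) * Complex.I * ((∑ j, b j * x j : ℝ) : ℂ))

/-- time-frequency shift -/
noncomputable def tf (a b : Fin d → ℝ) (f : (Fin d → ℝ) → ℂ) : (Fin d → ℝ) → ℂ := fun x =>
  ph b x * f (x - a)

lemma norm_ph (b x : Fin d → ℝ) : ‖ph b x‖ = 1 := by
  unfold ph
  have : (2 * (Real.pi : ℂ) * Complex.I * ((∑ j, b j * x j : ℝ) : ℂ))
      = ((2 * Real.pi * (∑ j, b j * x j) : ℝ) : ℂ) * Complex.I := by push_cast; ring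
  rw [this, Complex.norm_exp_ofReal_mul_I]

lemma ph_add_right (b x y : Fin d → ℝ) : ph b (x + y) = ph b x * ph b y := by
  unfold ph
  rw [← Complex.exp_add]
  congr 1
  have : (∑ j, b j * (x + y) j : ℝ) = (∑ j, b j * x j) + ∑ j, b j * y j := by
    rw [← sum_add_distrib]
    exact sum_congr rfl (fun j _ => by simp [mul_add])
  rw [this]
  push_cast
  ring

lemma ph_add_left (b c x : Fin d → ℝ) : ph (b + c) x = ph b x * ph c x := by
  unfold ph
  rw [← Complex.exp_add]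
  congr 1
  have : (∑ j, (b + c) j * x j : ℝ) = (∑ j, b j * x j) + ∑ j, c j * x j := by
    rw [← sum_add_distrib]
    exact sum_congr rfl (fun j _ => by simp [add_mul])
  rw [this]
  push_cast
  ring

@[simp] lemma ph_zero_left (x : Fin d → ℝ) : ph 0 x = 1 := by simp [ph]
@[simp] lemma ph_zero_right (b : Fin d → ℝ) : ph b 0 = 1 := by simp [ph]

lemma conj_ph (b x : Fin d → ℝ) : conj (ph b x) = ph (-b) x := by
  unfold ph
  rw [← Complex.exp_conj]
  congr 1
  simp only [map_mul, Complex.conj_I, Complex.conj_ofReal, map_ofNat, Pi.neg_apply]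
  have : (∑ j, -b j * x j : ℝ) = -(∑ j, b j * x j) := by
    rw [← sum_neg_distrib]
    exact sum_congr rfl (fun j _ => by ring)
  rw [this]
  push_cast
  ring

lemma ph_neg_right (b x : Fin d → ℝ) : ph b (-x) = ph (-b) x := by
  unfold ph
  congr 3
  exact sum_congr rfl (fun j _ => by simp)

lemma continuous_ph (b : Fin d → ℝ) : Continuous (ph b) := by
  unfold ph
  fun_prop

lemma norm_tf (a b : Fin d → ℝ) (f : (Fin d → ℝ) → ℂ) (x : Fin d → ℝ) :
    ‖tf a b f x‖ = ‖f (x - a)‖ := by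
  rw [tf, norm_mul, norm_ph, one_mul]

lemma memLp_tf {f : (Fin d → ℝ) → ℂ} (hf : MemLp f 2 volume) (a b : Fin d → ℝ) :
    MemLp (tf a b f) 2 volume := by
  have h1 : MemLp (fun x => f (x - a)) 2 volume :=
    hf.comp_measurePreserving (measurePreserving_sub_right volume a)
  apply h1.of_le ((continuous_ph b).aestronglyMeasurable.mul h1.aestronglyMeasurable)
  exact Eventually.of_forall (fun x => (norm_tf a b f x).le)

lemma n2_tf (a b : Fin d → ℝ) (f : (Fin d → ℝ) → ℂ) : n2 (tf a b f) = n2 f := by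
  unfold n2
  simp_rw [norm_tf]
  exact integral_sub_right_eq_self (fun x => ‖f x‖ ^ 2) a

lemma ip_tf_tf (a b a' b' : Fin d → ℝ) (f h : (Fin d → ℝ) → ℂ) :
    ip (tf a b f) (tf a' b' h) = ph (b' - b) a * ip f (tf (a' - a) (b' - b) h) := by
  unfold ip
  rw [← integral_add_right_eq_self (fun x => conj (tf a b f x) * tf a' b' h x) a,
    ← integral_const_mul]
  congr 1
  ext x
  unfold tf
  rw [map_mul, conj_ph, add_sub_cancel_right, sub_eq_add_neg b' b, ph_add_left, ph_add_left,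
    ph_add_right, ph_add_right, show x + a - a' = x - (a' - a) by abel]
  ring

lemma ip_tf_left (a b : Fin d → ℝ) (f h : (Fin d → ℝ) → ℂ) :
    ip (tf a b f) h = ph (-b) a * ip f (tf (-a) (-b) h) := by
  have h1 := ip_tf_tf a b 0 0 f h
  have h2 : tf 0 0 h = h := by funext x; simp [tf]
  rw [h2, zero_sub, zero_sub] at h1
  exact h1

lemma tf_tf (a b a' b' : Fin d → ℝ) (f : (Fin d → ℝ) → ℂ) :
    tf a b (tf a' b' f) = fun x => ph b' (-a) * tf (a + a') (b + b') f x := by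
  funext x
  unfold tf
  rw [sub_eq_add_neg x a, ph_add_right, ph_add_left, show x + -a - a' = x - (a + a') by abel]
  ring

lemma int_ip {f g : (Fin d → ℝ) → ℂ} (hf : MemLp f 2 volume) (hg : MemLp g 2 volume) :
    Integrable (fun x => conj (f x) * g x) volume := MemLp.integrable_mul hf.star hg

lemma ip_sub_right {f g h : (Fin d → ℝ) → ℂ} (hf : MemLp f 2 volume) (hg : MemLp g 2 volume)
    (hh : MemLp h 2 volume) : ip f (fun x => g x - h x) = ip f g - ip f h := by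
  unfold ip
  rw [← integral_sub (int_ip hf hg) (int_ip hf hh)]
  congr 1
  ext x
  ring

lemma ip_sub_left {f g h : (Fin d → ℝ) → ℂ} (hf : MemLp f 2 volume) (hg : MemLp g 2 volume)
    (hh : MemLp h 2 volume) : ip (fun x => f x - g x) h = ip f h - ip g h := by
  unfold ip
  rw [← integral_sub (int_ip hf hh) (int_ip hg hh)]
  congr 1
  ext x
  rw [map_sub, sub_mul]

lemma ip_smul_right (c : ℂ) (f g : (Fin d → ℝ) → ℂ) :
    ip f (fun x => c * g x) = c * ip f g := by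
  unfold ip
  rw [← integral_const_mul]
  congr 1
  ext x
  ring

lemma ip_smul_left (c : ℂ) (f g : (Fin d → ℝ) → ℂ) :
    ip (fun x => c * f x) g = conj c * ip f g := by
  unfold ip
  rw [← integral_const_mul]
  congr 1
  ext x
  rw [map_mul]
  ring

lemma inner_toLp {f h : (Fin d → ℝ) → ℂ} (hf : MemLp f 2 volume) (hh : MemLp h 2 volume) :
    ⟪hf.toLp f, hh.toLp h⟫_ℂ = ip f h := by
  rw [L2.inner_def]
  apply integral_congr_ae
  filter_upwards [hf.coeFn_toLp, hh.coeFn_toLp] with x h1 h2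
  rw [h1, h2, RCLike.inner_apply']

lemma norm_toLp_sq {f : (Fin d → ℝ) → ℂ} (hf : MemLp f 2 volume) :
    ‖hf.toLp f‖ ^ 2 = n2 f := by
  have h1 := inner_toLp hf hf
  rw [inner_self_eq_norm_sq_to_K] at h1
  have h2 : ip f f = ((n2 f : ℝ) : ℂ) := by
    unfold ip n2
    rw [← integral_complex_ofReal]
    congr 1
    ext x
    rw [Complex.conj_mul']
    push_cast
    rfl
  rw [h2] at h1
  apply Complex.ofReal_injective
  rw [← h1]
  push_cast
  rfl

lemma n2_nonneg (f : (Fin d → ℝ) → ℂ) : 0 ≤ n2 f := integral_nonneg (fun _ => by positivity)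

lemma norm_ip_le {f h : (Fin d → ℝ) → ℂ} (hf : MemLp f 2 volume) (hh : MemLp h 2 volume) :
    ‖ip f h‖ ^ 2 ≤ n2 f * n2 h := by
  rw [← inner_toLp hf hh, ← norm_toLp_sq hf, ← norm_toLp_sq hh, ← mul_pow]
  exact pow_le_pow_left₀ (norm_nonneg _) (norm_inner_le_norm _ _) 2

/-- The data used in the argument. `lam k = (a k, b k)` is additive in `k`. -/
structure Sys (d : ℕ) where
  a : (Fin d ⊕ Fin d → ℤ) → (Fin d → ℝ)
  b : (Fin d ⊕ Fin d → ℤ) → (Fin d → ℝ)
  a_sub : ∀ k l, a (k - l) = a k - a l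
  b_sub : ∀ k l, b (k - l) = b k - b l

variable (S : Sys d)

lemma Sys.a_zero : S.a 0 = 0 := by have := S.a_sub 0 0; simpa using this
lemma Sys.b_zero : S.b 0 = 0 := by have := S.b_sub 0 0; simpa using this
lemma Sys.a_neg (k : Fin d ⊕ Fin d → ℤ) : S.a (-k) = - S.a k := by
  have := S.a_sub 0 k
  rwa [zero_sub, S.a_zero, zero_sub] at this
lemma Sys.b_neg (k : Fin d ⊕ Fin d → ℤ) : S.b (-k) = - S.b k := by
  have := S.b_sub 0 k
  rwa [zero_sub, S.b_zero, zero_sub] at this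

/-- Gabor elements. -/
noncomputable def Sys.el (f : (Fin d → ℝ) → ℂ) (k : Fin d ⊕ Fin d → ℤ) : (Fin d → ℝ) → ℂ :=
  tf (S.a k) (S.b k) f

/-- The hypothesis: the Gabor system is a Riesz basis, in function form. -/
structure Riesz (g : (Fin d → ℝ) → ℂ) (A B : ℝ) : Prop where
  mem : MemLp g 2 volume
  hA : 0 < A
  hB : 0 < B
  complete : ∀ h : (Fin d → ℝ) → ℂ, MemLp h 2 volume → (∀ k, ip h (S.el g k) = 0) → h =ᵐ[volume] 0
  lower : ∀ (s : Finset (Fin d ⊕ Fin d → ℤ)) (c : (Fin d ⊕ Fin d → ℤ) → ℂ),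
    A * ∑ k ∈ s, ‖c k‖ ^ 2 ≤ ∫ x, ‖∑ k ∈ s, c k * S.el g k x‖ ^ 2
  upper : ∀ (s : Finset (Fin d ⊕ Fin d → ℤ)) (c : (Fin d ⊕ Fin d → ℤ) → ℂ),
    ∫ x, ‖∑ k ∈ s, c k * S.el g k x‖ ^ 2 ≤ B * ∑ k ∈ s, ‖c k‖ ^ 2

variable {S} {g : (Fin d → ℝ) → ℂ} {A B : ℝ}

lemma memLp_el {f : (Fin d → ℝ) → ℂ} (hf : MemLp f 2 volume) (k : Fin d ⊕ Fin d → ℤ) :
    MemLp (S.el f k) 2 volume := memLp_tf hf _ _

lemma norm_sum_toLp {f : (Fin d ⊕ Fin d → ℤ) → (Fin d → ℝ) → ℂ} (hf : ∀ k, MemLp (f k) 2 volume)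
    (s : Finset (Fin d ⊕ Fin d → ℤ)) (c : (Fin d ⊕ Fin d → ℤ) → ℂ) :
    ‖∑ k ∈ s, c k • (hf k).toLp (f k)‖ ^ 2 = ∫ x, ‖∑ k ∈ s, c k * f k x‖ ^ 2 := by
  have h1 : ∀ s : Finset (Fin d ⊕ Fin d → ℤ),
      ∃ hm : MemLp (fun x => ∑ k ∈ s, c k * f k x) 2 volume,
      ∑ k ∈ s, c k • (hf k).toLp (f k) = hm.toLp (fun x => ∑ k ∈ s, c k * f k x) := by
    intro s
    induction s using Finset.induction with
    | empty =>
      refine ⟨by simp, ?_⟩
      simp
      rfl
    | insert i s hi ih =>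
      obtain ⟨hm, he⟩ := ih
      have hm2 : MemLp (fun x => c i * f i x) 2 volume := (hf i).const_mul (c i)
      have hm3 : MemLp (fun x => ∑ k ∈ insert i s, c k * f k x) 2 volume := by
        have := hm2.add hm
        refine this.ae_eq (Eventually.of_forall (fun x => ?_))
        simp [sum_insert hi]
      refine ⟨hm3, ?_⟩
      rw [sum_insert hi, he, ← MemLp.toLp_const_smul, ← MemLp.toLp_add]
      apply MemLp.toLp_congr
      refine Eventually.of_forall (fun x => ?_)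
      simp [sum_insert hi]
  obtain ⟨hm, he⟩ := h1 s
  rw [he, norm_toLp_sq]
  rfl

lemma Riesz.rb (h : Riesz S g A B) : RB (fun k => (memLp_el h.mem k).toLp (S.el g k)) A B where
  hA := h.hA
  hB := h.hB
  complete := by
    intro u hu
    have hm := Lp.memLp u
    have h1 : hm.toLp u = u := Lp.toLp_coeFn u hm
    have h2 := h.complete u hm (fun k => by
      rw [← inner_toLp hm (memLp_el h.mem k), h1]
      exact hu k)
    rw [Lp.eq_zero_iff_ae_eq_zero]
    exact h2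
  lower s c := by
    rw [norm_sum_toLp (fun k => memLp_el h.mem k)]
    exact h.lower s c
  upper s c := by
    rw [norm_sum_toLp (fun k => memLp_el h.mem k)]
    exact h.upper s c

/-- The dual window. -/
lemma Riesz.exists_dual (h : Riesz S g A B) : ∃ γ : (Fin d → ℝ) → ℂ, MemLp γ 2 volume ∧
    ∀ k, ip γ (S.el g k) = if k = 0 then 1 else 0 := by
  obtain ⟨u, hu⟩ := h.rb.exists_dual 0
  refine ⟨u, Lp.memLp u, fun k => ?_⟩
  rw [← inner_toLp (Lp.memLp u) (memLp_el h.mem k), Lp.toLp_coeFn]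
  exact hu k

structure DualW (S : Sys d) (g γ : (Fin d → ℝ) → ℂ) (A B : ℝ) : Prop where
  rz : Riesz S g A B
  mem : MemLp γ 2 volume
  dual : ∀ k, ip γ (S.el g k) = if k = 0 then 1 else 0

variable {γ : (Fin d → ℝ) → ℂ}

lemma DualW.biorth (h : DualW S g γ A B) (k l : Fin d ⊕ Fin d → ℤ) :
    ip (S.el γ k) (S.el g l) = if l = k then 1 else 0 := by
  unfold Sys.el
  rw [ip_tf_tf, ← S.a_sub, ← S.b_sub]
  have h1 := h.dual (l - k)
  unfold Sys.el at h1
  rw [h1]
  by_cases hlk : l = k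
  · subst hlk
    rw [sub_self, S.b_zero, ph_zero_left, if_pos rfl, if_pos rfl, one_mul]
  · rw [if_neg (sub_ne_zero.2 hlk), if_neg hlk, mul_zero]

lemma DualW.isDual (h : DualW S g γ A B) :
    Dual (fun k => (memLp_el h.rz.mem k).toLp (S.el g k))
      (fun k => (memLp_el h.mem k).toLp (S.el γ k)) := by
  intro k l
  rw [inner_toLp]
  exact h.biorth k l

lemma DualW.bessel (h : DualW S g γ A B) {f : (Fin d → ℝ) → ℂ} (hf : MemLp f 2 volume)
    (s : Finset (Fin d ⊕ Fin d → ℤ)) :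
    ∑ k ∈ s, ‖ip (S.el γ k) f‖ ^ 2 ≤ A⁻¹ * n2 f := by
  have h1 := h.rz.rb.bessel_dual h.isDual s (hf.toLp f)
  simp only [inner_toLp] at h1
  rw [norm_toLp_sq] at h1
  exact h1

lemma DualW.bessel_g (h : DualW S g γ A B) {f : (Fin d → ℝ) → ℂ} (hf : MemLp f 2 volume)
    (s : Finset (Fin d ⊕ Fin d → ℤ)) :
    ∑ k ∈ s, ‖ip f (S.el g k)‖ ^ 2 ≤ B * n2 f := by
  have h1 := h.rz.rb.bessel s (hf.toLp f)
  simp only [inner_toLp] at h1
  rw [norm_toLp_sq] at h1
  exact h1

lemma DualW.norm_le (h : DualW S g γ A B) {D : (Fin d → ℝ) → ℂ} (hD : MemLp D 2 volume) {K : ℝ}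
    (hK : 0 ≤ K) (hs : ∀ s : Finset (Fin d ⊕ Fin d → ℤ), ∑ k ∈ s, ‖ip D (S.el g k)‖ ^ 2 ≤ K) :
    n2 D ≤ A⁻¹ * K := by
  rw [← norm_toLp_sq hD]
  apply h.rz.rb.norm_le _ hK
  intro s
  simp only [inner_toLp]
  exact hs s

lemma DualW.expansion (h : DualW S g γ A B) {f u : (Fin d → ℝ) → ℂ} (hf : MemLp f 2 volume)
    (hu : MemLp u 2 volume) :
    HasSum (fun k => ip u (S.el g k) * ip (S.el γ k) f) (ip u f) := by
  have h1 := h.rz.rb.expansion h.isDual (hf.toLp f) (hu.toLp u)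
  simp only [inner_toLp] at h1
  exact h1

/-- The key estimate: regularity passes from the window to the dual window. -/
lemma DualW.modulation (h : DualW S g γ A B) (w : Fin d → ℝ) :
    n2 (fun x => tf 0 w γ x - γ x) ≤ A⁻¹ * (A⁻¹ * n2 (fun x => g x - tf 0 w g x)) := by
  have hg := h.rz.mem
  have hγ := h.mem
  have hgw := memLp_tf hg 0 w
  have hγw := memLp_tf hγ 0 w
  set u : (Fin d → ℝ) → ℂ := fun x => g x - tf 0 w g x with hu
  have hum : MemLp u 2 volume := hg.sub hgw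
  have huw : MemLp (tf 0 (-w) u) 2 volume := memLp_tf hum 0 (-w)
  have key : ∀ k, ‖ip (fun x => tf 0 w γ x - γ x) (S.el g k)‖
      = ‖ip (S.el γ (-k)) (tf 0 (-w) u)‖ := by
    intro k
    have e1 : ip (tf 0 w γ) (tf (S.a k) (S.b k) (tf 0 w g)) = ip γ (S.el g k) := by
      rw [tf_tf, ip_smul_right, ip_tf_tf]
      simp only [ph_zero_right, one_mul, sub_zero, add_zero]
      rw [add_sub_cancel_right]
      have h1 := h.dual k
      unfold Sys.el at h1 ⊢
      rw [h1]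
      by_cases hk : k = 0
      · rw [hk, S.a_zero]; simp
      · rw [if_neg hk, mul_zero]
    have e2 : ip (fun x => tf 0 w γ x - γ x) (S.el g k)
        = ip (tf 0 w γ) (tf (S.a k) (S.b k) u) := by
      rw [ip_sub_left hγw hγ (memLp_el hg k), ← e1]
      have e3 : tf (S.a k) (S.b k) u
          = fun x => S.el g k x - tf (S.a k) (S.b k) (tf 0 w g) x := by
        funext x
        unfold Sys.el
        simp only [tf, hu]
        ring
      rw [e3, ip_sub_right hγw (memLp_el hg k) (memLp_tf hgw _ _)]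
    rw [e2, ip_tf_tf]
    unfold Sys.el
    rw [ip_tf_tf, norm_mul, norm_mul, norm_ph, norm_ph, S.a_neg, S.b_neg]
    congr 3
    · congr 1
      · simp
      · abel
  have hD : MemLp (fun x => tf 0 w γ x - γ x) 2 volume := hγw.sub hγ
  apply h.norm_le hD (mul_nonneg (inv_nonneg.2 h.rz.hA.le) (n2_nonneg _))
  intro s
  simp_rw [key]
  have h1 : ∑ k ∈ s, ‖ip (S.el γ (-k)) (tf 0 (-w) u)‖ ^ 2
      = ∑ k ∈ s.image (fun k => -k), ‖ip (S.el γ k) (tf 0 (-w) u)‖ ^ 2 := by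
    rw [sum_image (fun x _ y _ hxy => neg_injective hxy)]
  rw [h1, ← n2_tf 0 (-w) u]
  exact h.bessel huw _

end Pool.Agent.X93.BLT
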