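import Pool.Agent.X93.BLT.TF

/-! Translation estimate for functions with a weak derivative in `L²`. -/

set_option autoImplicit false
set_option linter.unusedSectionVars false

open Filter Topology Finset MeasureTheory
open scoped InnerProductSpace ComplexConjugate

namespace Pool.Agent.X93.BLT

variable {d : ℕ}

/-- `h` is the weak derivative of `g` in direction `v`. -/
def WeakD (v : Fin d → ℝ) (g h : (Fin d → ℝ) → ℂ) : Prop :=
  ∀ φ : (Fin d → ℝ) → ℂ, ContDiff ℝ ((⊤ : ℕ∞) : WithTop ℕ∞) φ → HasCompactSupport φ →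
    ∫ x, g x * fderiv ℝ φ x v = - ∫ x, h x * φ x

lemma memLp_test {φ : (Fin d → ℝ) → ℂ} (hφ : ContDiff ℝ ((⊤ : ℕ∞) : WithTop ℕ∞) φ)
    (hc : HasCompactSupport φ) : MemLp φ 2 volume :=
  hφ.continuous.memLp_of_hasCompactSupport hc

lemma memLp_shift {φ : (Fin d → ℝ) → ℂ} (hφ : MemLp φ 2 volume) (w : Fin d → ℝ) :
    MemLp (fun x => φ (x + w)) 2 volume :=
  hφ.comp_measurePreserving (measurePreserving_add_right volume w)

lemma hasDerivAt_F {g : (Fin d → ℝ) → ℂ} (hg : MemLp g 2 volume) {φ : (Fin d → ℝ) → ℂ}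
    (hφ : ContDiff ℝ ((⊤ : ℕ∞) : WithTop ℕ∞) φ) (hc : HasCompactSupport φ) (v : Fin d → ℝ)
    (s0 : ℝ) :
    HasDerivAt (fun s : ℝ => ∫ x, g x * φ (x + s • v))
      (∫ x, g x * fderiv ℝ φ (x + s0 • v) v) s0 := by
  have hdiff : Differentiable ℝ φ := hφ.differentiable (by simp)
  have hcf : Continuous (fun x => fderiv ℝ φ x v) :=
    (hφ.continuous_fderiv (by simp)).clm_apply continuous_const
  have hcfs : HasCompactSupport (fun x => fderiv ℝ φ x v) := hc.fderiv_apply (𝕜 := ℝ) v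
  obtain ⟨C, hC⟩ := hcf.bounded_above_of_compact_support hcfs
  set K : Set (Fin d → ℝ) :=
    (fun p : (Fin d → ℝ) × ℝ => p.1 - p.2 • v) '' (tsupport φ ×ˢ Metric.closedBall s0 1) with hK
  have hKc : IsCompact K := by
    apply (IsCompact.prod hc (isCompact_closedBall s0 1)).image
    fun_prop
  have hbint : Integrable (fun x => ‖g x‖ * K.indicator (fun _ => C) x) volume := by
    have h1 : MemLp (K.indicator (fun _ => C)) 2 (volume : Measure (Fin d → ℝ)) :=
      memLp_indicator_const _ hKc.measurableSet _ (Or.inr hKc.measure_lt_top.ne)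
    exact MemLp.integrable_mul hg.norm h1
  refine (hasDerivAt_integral_of_dominated_loc_of_deriv_le (μ := volume)
    (F := fun (s : ℝ) x => g x * φ (x + s • v))
    (F' := fun (s : ℝ) x => g x * fderiv ℝ φ (x + s • v) v)
    (bound := fun x => ‖g x‖ * K.indicator (fun _ => C) x) (Metric.ball_mem_nhds s0 one_pos)
    ?_ ?_ ?_ ?_ hbint ?_).2
  · refine Eventually.of_forall (fun s => ?_)
    exact hg.aestronglyMeasurable.mul
      (hφ.continuous.comp (continuous_id.add continuous_const)).aestronglyMeasurable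
  · exact MemLp.integrable_mul hg (memLp_shift (memLp_test hφ hc) (s0 • v))
  · exact hg.aestronglyMeasurable.mul
      (hcf.comp (continuous_id.add continuous_const)).aestronglyMeasurable
  · refine Eventually.of_forall (fun x s hs => ?_)
    rw [norm_mul]
    apply mul_le_mul_of_nonneg_left _ (norm_nonneg _)
    by_cases hx : x ∈ K
    · rw [Set.indicator_of_mem hx]
      exact hC _
    · rw [Set.indicator_of_notMem hx]
      have hnot : x + s • v ∉ tsupport φ := by
        intro hmem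
        apply hx
        refine ⟨(x + s • v, s), ⟨hmem, Metric.ball_subset_closedBall hs⟩, ?_⟩
        simp
      rw [fderiv_of_notMem_tsupport ℝ hnot]
      simp
  · refine Eventually.of_forall (fun x s _ => ?_)
    have h1 : HasDerivAt (fun s : ℝ => x + s • v) v s := by
      have := ((hasDerivAt_id s).smul_const v).const_add x
      simpa using this
    have h2 : HasDerivAt (fun s : ℝ => φ (x + s • v)) (fderiv ℝ φ (x + s • v) v) s :=
      (hdiff (x + s • v)).hasFDerivAt.comp_hasDerivAt s h1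
    exact h2.const_mul (g x)

lemma n2_conj (h : (Fin d → ℝ) → ℂ) : n2 (fun x => conj (h x)) = n2 h := by
  unfold n2
  simp

lemma norm_integral_mul_le {h φ : (Fin d → ℝ) → ℂ} (hh : MemLp h 2 volume)
    (hφ : MemLp φ 2 volume) : ‖∫ x, h x * φ x‖ ≤ Real.sqrt (n2 h * n2 φ) := by
  have h1 := norm_ip_le hh.star hφ
  have h2 : ip (star h) φ = ∫ x, h x * φ x := by
    unfold ip
    congr 1
    ext x
    simp
  have h3 : n2 (star h) = n2 h := by
    unfold n2
    simp
  rw [h2, h3] at h1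
  exact Real.le_sqrt_of_sq_le h1

lemma test_bound {g h : (Fin d → ℝ) → ℂ} (hg : MemLp g 2 volume) (hh : MemLp h 2 volume)
    {v : Fin d → ℝ} (hw : WeakD v g h) {φ : (Fin d → ℝ) → ℂ}
    (hφ : ContDiff ℝ ((⊤ : ℕ∞) : WithTop ℕ∞) φ) (hc : HasCompactSupport φ) (t : ℝ) :
    ‖∫ x, (g (x - t • v) - g x) * φ x‖ ≤ Real.sqrt (n2 h * n2 φ) * |t| := by
  have hd : ∀ s : ℝ, s ∈ (Set.univ : Set ℝ) → HasDerivWithinAt
      (fun s : ℝ => ∫ x, g x * φ (x + s • v))
      (∫ x, g x * fderiv ℝ φ (x + s • v) v) Set.univ s :=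
    fun s _ => (hasDerivAt_F hg hφ hc v s).hasDerivWithinAt
  have hb : ∀ s : ℝ, s ∈ (Set.univ : Set ℝ) →
      ‖∫ x, g x * fderiv ℝ φ (x + s • v) v‖ ≤ Real.sqrt (n2 h * n2 φ) := by
    intro s _
    set ψ : (Fin d → ℝ) → ℂ := fun x => φ (x + s • v) with hψ
    have hψc : ContDiff ℝ ((⊤ : ℕ∞) : WithTop ℕ∞) ψ := hφ.comp (contDiff_id.add contDiff_const)
    have hψs : HasCompactSupport ψ := hc.comp_homeomorph (Homeomorph.addRight (s • v))
    have h1 := hw ψ hψc hψs
    have h2 : ∀ x, fderiv ℝ ψ x v = fderiv ℝ φ (x + s • v) v := by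
      intro x
      rw [hψ, fderiv_comp_add_right]
    simp_rw [h2] at h1
    rw [h1, norm_neg]
    have h3 : n2 ψ = n2 φ := by
      unfold n2
      exact integral_add_right_eq_self (fun x => ‖φ x‖ ^ 2) (s • v)
    rw [← h3]
    exact norm_integral_mul_le hh (memLp_test hψc hψs)
  have h1 := Convex.norm_image_sub_le_of_norm_hasDerivWithin_le hd hb convex_univ
    (Set.mem_univ 0) (Set.mem_univ t)
  have h2 : ∫ x, (g (x - t • v) - g x) * φ x
      = (∫ x, g x * φ (x + t • v)) - ∫ x, g x * φ (x + (0 : ℝ) • v) := by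
    have hgt : MemLp (fun x => g (x - t • v)) 2 volume := by
      have := memLp_shift hg (-(t • v))
      simpa [sub_eq_add_neg] using this
    have e1 : ∫ x, g (x - t • v) * φ x = ∫ x, g x * φ (x + t • v) := by
      rw [← integral_add_right_eq_self (fun x => g (x - t • v) * φ x) (t • v)]
      simp
    rw [← e1]
    rw [← integral_sub (f := fun x => g (x - t • v) * φ x)
      (g := fun x => g x * φ (x + (0 : ℝ) • v))]
    · congr 1
      ext x
      simp [sub_mul]
    · exact MemLp.integrable_mul hgt (memLp_test hφ hc)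
    · have hi : Integrable (fun x => g x * φ x) volume :=
        MemLp.integrable_mul hg (memLp_test hφ hc)
      simpa using hi
  rw [h2]
  simpa using h1

/-- Functions with weak derivative in `L²` are Lipschitz under translations. -/
lemma translation_bound {g h : (Fin d → ℝ) → ℂ} (hg : MemLp g 2 volume) (hh : MemLp h 2 volume)
    {v : Fin d → ℝ} (hw : WeakD v g h) (t : ℝ) :
    n2 (fun x => tf (t • v) 0 g x - g x) ≤ t ^ 2 * n2 h := by
  have hgt := memLp_tf hg (t • v) 0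
  set w : (Fin d → ℝ) → ℂ := fun x => tf (t • v) 0 g x - g x with hwdef
  have hwm : MemLp w 2 volume := hgt.sub hg
  set W := hwm.star.toLp (star w) with hW
  have hcl : IsClosed {f : Lp ℂ 2 (volume : Measure (Fin d → ℝ)) |
      ‖⟪W, f⟫_ℂ‖ ≤ (Real.sqrt (n2 h) * |t|) * ‖f‖} :=
    isClosed_le (by fun_prop) (by fun_prop)
  have hsub : {f : Lp ℂ 2 (volume : Measure (Fin d → ℝ)) |
      ∃ (g : (Fin d → ℝ) → ℂ), f =ᵐ[volume] g ∧ HasCompactSupport g ∧
        ContDiff ℝ ((⊤ : ℕ∞) : WithTop ℕ∞) g}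
      ⊆ {f : Lp ℂ 2 (volume : Measure (Fin d → ℝ)) |
      ‖⟪W, f⟫_ℂ‖ ≤ (Real.sqrt (n2 h) * |t|) * ‖f‖} := by
    rintro f ⟨φ, hfφ, hc, hφ⟩
    have hφm := memLp_test hφ hc
    have hf : f = hφm.toLp φ := by
      rw [← Lp.toLp_coeFn f (Lp.memLp f)]
      exact MemLp.toLp_congr _ _ hfφ
    show ‖⟪W, f⟫_ℂ‖ ≤ (Real.sqrt (n2 h) * |t|) * ‖f‖
    have h1 := test_bound hg hh hw hφ hc t
    have h2 : ⟪W, f⟫_ℂ = ∫ x, (g (x - t • v) - g x) * φ x := by
      rw [hf, hW, inner_toLp]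
      unfold ip
      congr 1
      ext x
      simp [hwdef, tf]
    have h3 : ‖f‖ = Real.sqrt (n2 φ) := by
      rw [hf, ← norm_toLp_sq hφm, Real.sqrt_sq (norm_nonneg _)]
    rw [h2, h3]
    refine h1.trans (le_of_eq ?_)
    rw [Real.sqrt_mul (n2_nonneg h)]
    ring
  have hdense := Lp.dense_hasCompactSupport_contDiff (E := Fin d → ℝ) (F := ℂ)
    (μ := (volume : Measure (Fin d → ℝ))) (p := 2) (by norm_num)
  have h1 := closure_minimal hsub hcl
  rw [hdense.closure_eq] at h1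
  have h2 : ‖⟪W, W⟫_ℂ‖ ≤ (Real.sqrt (n2 h) * |t|) * ‖W‖ := h1 (Set.mem_univ W)
  have h3 : ‖⟪W, W⟫_ℂ‖ = ‖W‖ * ‖W‖ := by
    rw [inner_self_eq_norm_sq_to_K]
    simp [sq]
  rw [h3] at h2
  have h4 : ‖W‖ ≤ Real.sqrt (n2 h) * |t| := by
    by_cases h0 : ‖W‖ = 0
    · rw [h0]; positivity
    · have hpos : 0 < ‖W‖ := lt_of_le_of_ne (norm_nonneg _) (Ne.symm h0)
      exact le_of_mul_le_mul_right h2 hpos
  have h5 : n2 w = ‖W‖ ^ 2 := by
    rw [hW, norm_toLp_sq]
    unfold n2
    simp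
  rw [h5]
  calc ‖W‖ ^ 2 ≤ (Real.sqrt (n2 h) * |t|) ^ 2 := pow_le_pow_left₀ (norm_nonneg _) h4 2
    _ = t ^ 2 * n2 h := by
      rw [mul_pow, Real.sq_sqrt (n2_nonneg h), sq_abs]
      ring

end Pool.Agent.X93.BLT
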